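import Pool.Agent.Y33.RN.Stm
import Pool.Agent.TH54.BU.QuoEA

/-!
# The quotient of the cone metric by the relators is hyperbolic (job RN-RB4, helper215)
-/

set_option autoImplicit false

namespace Pool.Agent.Y215.RN.RB4

open Pool.Agent.TH54.BU Pool.Agent.Y33.SM Pool.Agent.H17R2 Pool.Agent.Y33.RN

variable {W : Words (Fin 5)} {E : GH F5} {K : ℤ} {Θ : ℕ}

/-- a nontrivial translate has a long projection to a relator line -/
theorem long (P0 : F5) (m : F5) (hm : m ∈ W.toFam.N) (h1 : m * P0 ≠ P0) :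
    ∃ x ∈ W.toFam.fam, (W.K - 6) * x.2 ≤
      W.K * |(fTree (Fin 5)).pr x.1 P0 - (fTree (Fin 5)).pr x.1 (m * P0)| := by
  have hN : W.toFam.N.Normal := W.toFam.N_normal
  have hg : P0⁻¹ * m * P0 ∈ W.toFam.N := by
    have := hN.conj_mem m hm P0⁻¹
    rwa [inv_inv] at this
  have hg1 : P0⁻¹ * m * P0 ≠ 1 := by
    intro h
    apply h1
    have h' : P0 * (P0⁻¹ * m * P0) = P0 * 1 := by rw [h]
    rw [mul_one] at h'
    calc m * P0 = P0 * (P0⁻¹ * m * P0) := by group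
      _ = P0 := h'
  obtain ⟨x, hx⟩ := W.toFam.toLines.windmill _ hg hg1
  change (W.K - 6) * x.1.2 ≤ W.K * |(fTree (Fin 5)).pr x.1.1 (1 : F5) -
    (fTree (Fin 5)).pr x.1.1 ((P0⁻¹ * m * P0) * 1)| at hx
  refine ⟨(P0 • x : W.toFam.fam).1, (P0 • x : W.toFam.fam).2, ?_⟩
  have e1 := W.toFam.pr_smul P0 x (1 : F5)
  have e2 := W.toFam.pr_smul P0 x ((P0⁻¹ * m * P0) * 1)
  change (fTree (Fin 5)).pr (P0 • x : W.toFam.fam).1.1 (P0 * 1) =
    (fTree (Fin 5)).pr x.1.1 (1 : F5) at e1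
  change (fTree (Fin 5)).pr (P0 • x : W.toFam.fam).1.1 (P0 * ((P0⁻¹ * m * P0) * 1)) =
    (fTree (Fin 5)).pr x.1.1 ((P0⁻¹ * m * P0) * 1) at e2
  rw [mul_one] at e1
  rw [show P0 * ((P0⁻¹ * m * P0) * 1) = m * P0 by group] at e2
  rw [e1, e2]
  exact hx

/-- the translation of a relator line by a multiple of the period -/
theorem tr (x : (ℤ → F5) × ℤ) (hx : x ∈ W.toFam.fam) (e : ℤ) (he : e = 1 ∨ e = -1) :
    ∃ t ∈ W.toFam.N, ∀ k, t * x.1 k = x.1 (k + e * x.2) := by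
  obtain ⟨t, ht, h⟩ := W.exists_tr x hx
  rcases he with rfl | rfl
  · exact ⟨t, ht, fun k => by rw [h, one_mul]⟩
  · refine ⟨t⁻¹, inv_mem ht, fun k => ?_⟩
    rw [inv_mul_eq_iff_eq_mul, h]
    ring_nf

/-- a translation along a relator line does not increase the length of a side with a large
projection -/
theorem rot (J : ∀ g : F5, Jm W g → E.len g ≤ 1) (H : JP W E Θ) (x : (ℤ → F5) × ℤ)
    (hx : x ∈ W.toFam.fam) (p q : F5)
    (h : (Θ : ℤ) * x.2 ≤ W.K * |(fTree (Fin 5)).pr x.1 p - (fTree (Fin 5)).pr x.1 q|)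
    (t : F5) (s : ℤ) (ht : ∀ k, t * x.1 k = x.1 (k + s)) : E.d p (t * q) ≤ E.d p q := by
  obtain ⟨γ, g0, gn, gs⟩ := E.qo_geod (E.d p q) p q rfl
  obtain ⟨k, hk, a, b, ha, hb⟩ := H x hx γ (E.d p q) ⟨gs, by rw [g0, gn]⟩ (by rw [g0, gn]; exact h)
  have h1 := E.qo_path gs 0 k (by omega)
  rw [zero_add, g0] at h1
  have h2 := E.qo_path gs (k + 1) (E.d p q - (k + 1)) (by omega)
  rw [show k + 1 + (E.d p q - (k + 1)) = E.d p q by omega, gn] at h2
  have h3 : E.d (γ k) (t * γ (k + 1)) ≤ 1 := by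
    unfold GH.d
    refine J _ (Or.inr ⟨x, hx, a, b + s, ?_⟩)
    rw [ha, hb, ht]
  have h4 : E.d (t * γ (k + 1)) (t * q) ≤ E.d p q - (k + 1) := by
    rw [E.d_mul]; exact h2
  have t1 := E.d_tri p (γ k) (t * q)
  have t2 := E.d_tri (γ k) (t * γ (k + 1)) (t * q)
  omega

/-- a translation along a relator line by one period towards `p` decreases the distance -/
theorem dec (x : (ℤ → F5) × ℤ) (hx : x ∈ W.toFam.fam) (p q : F5)
    (h : x.2 < 2 * |(fTree (Fin 5)).pr x.1 p - (fTree (Fin 5)).pr x.1 q|) :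
    ∃ t ∈ W.toFam.N, ∃ s : ℤ, (∀ k, t * x.1 k = x.1 (k + s)) ∧ fd p (t * q) < fd p q := by
  have hφ := W.toFam.line _ hx
  have hL := W.toFam.KL _ hx
  have hK := W.toFam.hK
  have hpos : 0 < x.2 := by omega
  have hd := hφ.d_eq p q
  have hq := hφ.pr_spec p ((fTree (Fin 5)).pr x.1 p)
  change (fTree (Fin 5)).pr x.1 p ≠ (fTree (Fin 5)).pr x.1 q → fd p q =
    fd p (x.1 ((fTree (Fin 5)).pr x.1 p)) +
      |(fTree (Fin 5)).pr x.1 p - (fTree (Fin 5)).pr x.1 q| +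
      fd (x.1 ((fTree (Fin 5)).pr x.1 q)) q at hd
  set a := (fTree (Fin 5)).pr x.1 p with ha
  set b := (fTree (Fin 5)).pr x.1 q with hb
  have hab : a ≠ b := by
    intro h'
    rw [h', sub_self, abs_zero] at h
    omega
  have hd' := hd hab
  have key : ∀ e : ℤ, (e = 1 ∨ e = -1) → |a - (b + e * x.2)| < |a - b| →
      ∃ t ∈ W.toFam.N, ∃ s : ℤ, (∀ k, t * x.1 k = x.1 (k + s)) ∧ fd p (t * q) < fd p q := by
    intro e he hlt
    obtain ⟨t, htN, ht⟩ := tr x hx e he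
    refine ⟨t, htN, e * x.2, ht, ?_⟩
    have t1 := fd_tri p (x.1 a) (t * q)
    have t2 := fd_tri (x.1 a) (x.1 (b + e * x.2)) (t * q)
    have t3 : fd (x.1 a) (x.1 (b + e * x.2)) = |a - (b + e * x.2)| := hφ _ _
    have t4 : fd (x.1 (b + e * x.2)) (t * q) = fd (x.1 b) q := by
      rw [← ht, fd_mul]
    omega
  rcases lt_or_gt_of_ne hab with hlt | hlt
  · apply key (-1) (Or.inr rfl)
    rw [abs_of_neg (sub_neg.2 hlt)] at h ⊢
    rw [abs_lt]
    constructor <;> omega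
  · apply key 1 (Or.inl rfl)
    rw [abs_of_pos (sub_pos.2 hlt)] at h ⊢
    rw [abs_lt]
    constructor <;> omega

/-- the closing lemma -/
theorem close (hK : 4 * (Θ : ℤ) + 100 ≤ W.K) (J : ∀ g : F5, Jm W g → E.len g ≤ 1)
    (H : JP W E Θ) (l : ℕ → ℕ) : ∀ (n : ℕ) (P : ℕ → F5), fd (P 0) (P 4) ≤ n →
      (∃ m ∈ W.toFam.N, P 4 = m * P 0) → (∀ j < 4, E.d (P j) (P (j + 1)) ≤ l j) →
      ∃ P' : ℕ → F5, (∀ j < 4, E.d (P' j) (P' (j + 1)) ≤ l j) ∧ P' 4 = P' 0 ∧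
        ∀ j ≤ 4, ∃ m ∈ W.toFam.N, P' j = m * P j := by
  intro n
  induction n with
  | zero =>
    intro P h _ hP
    have h0 := fd_nonneg (P 0) (P 4)
    have h1 : P 0 = P 4 := fd_zero _ _ (by push_cast at h; omega)
    exact ⟨P, hP, h1.symm, fun j _ => ⟨1, one_mem _, by rw [one_mul]⟩⟩
  | succ n ih =>
    intro P h hm hP
    obtain ⟨m, hm, h4⟩ := hm
    by_cases h1 : m * P 0 = P 0
    · exact ⟨P, hP, h4.trans h1, fun j _ => ⟨1, one_mem _, by rw [one_mul]⟩⟩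
    obtain ⟨x, hx, hlong⟩ := long (P 0) m hm h1
    rw [← h4] at hlong
    have hL := W.toFam.KL _ hx
    change W.K ≤ x.2 at hL
    have hpos : 0 < x.2 := by omega
    have hKpos : 0 < W.K := by omega
    -- one of the sides is long
    obtain ⟨j, hj, hlj⟩ : ∃ j < 4, (Θ : ℤ) * x.2 ≤ W.K *
        |(fTree (Fin 5)).pr x.1 (P j) - (fTree (Fin 5)).pr x.1 (P (j + 1))| := by
      by_contra hcon
      push Not at hcon
      have c0 := hcon 0 (by norm_num)
      have c1 := hcon 1 (by norm_num)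
      have c2 := hcon 2 (by norm_num)
      have c3 := hcon 3 (by norm_num)
      set q0 := (fTree (Fin 5)).pr x.1 (P 0)
      set q1 := (fTree (Fin 5)).pr x.1 (P 1)
      set q2 := (fTree (Fin 5)).pr x.1 (P 2)
      set q3 := (fTree (Fin 5)).pr x.1 (P 3)
      set q4 := (fTree (Fin 5)).pr x.1 (P 4)
      have t1 : |q0 - q4| ≤ |q0 - q1| + |q1 - q2| + |q2 - q3| + |q3 - q4| := by
        have a1 := abs_sub_le q0 q1 q4
        have a2 := abs_sub_le q1 q2 q4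
        have a3 := abs_sub_le q2 q3 q4
        omega
      have t2 : W.K * |q0 - q4| ≤ W.K * (|q0 - q1| + |q1 - q2| + |q2 - q3| + |q3 - q4|) :=
        mul_le_mul_of_nonneg_left t1 hKpos.le
      have c0' : W.K * |q0 - q1| < Θ * x.2 := c0
      have c1' : W.K * |q1 - q2| < Θ * x.2 := c1
      have c2' : W.K * |q2 - q3| < Θ * x.2 := c2
      have c3' : W.K * |q3 - q4| < Θ * x.2 := c3
      have t3 : (W.K - 6) * x.2 < 4 * (Θ * x.2) := by linarith
      nlinarith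
    have hhalf : x.2 < 2 * |(fTree (Fin 5)).pr x.1 (P 0) - (fTree (Fin 5)).pr x.1 (P 4)| := by
      by_contra hcon
      push Not at hcon
      have t2 := mul_le_mul_of_nonneg_left hcon hKpos.le
      nlinarith
    obtain ⟨t, htN, s, ht, hdec⟩ := dec x hx (P 0) (P 4) hhalf
    let Q : ℕ → F5 := fun i => if i ≤ j then P i else t * P i
    have hQ0 : Q 0 = P 0 := if_pos (Nat.zero_le j)
    have hQ4 : Q 4 = t * P 4 := if_neg (by omega)
    obtain ⟨P', p1, p2, p3⟩ := ih Q (by rw [hQ0, hQ4]; push_cast at h; omega)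
      ⟨t * m, mul_mem htN hm, by rw [hQ0, hQ4, h4, mul_assoc]⟩ (by
        intro i hi
        rcases lt_trichotomy i j with hij | hij | hij
        · have e1 : Q i = P i := if_pos (by omega)
          have e2 : Q (i + 1) = P (i + 1) := if_pos (by omega)
          rw [e1, e2]
          exact hP i hi
        · have e1 : Q i = P i := if_pos (by omega)
          have e2 : Q (i + 1) = t * P (i + 1) := if_neg (by omega)
          rw [e1, e2]
          refine (rot J H x hx (P i) (P (i + 1)) ?_ t s ht).trans (hP i hi)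
          rw [hij]
          exact hlj
        · have e1 : Q i = t * P i := if_neg (by omega)
          have e2 : Q (i + 1) = t * P (i + 1) := if_neg (by omega)
          rw [e1, e2, E.d_mul]
          exact hP i hi)
    refine ⟨P', p1, p2, fun i hi => ?_⟩
    obtain ⟨m', hm', h'⟩ := p3 i hi
    by_cases hij : i ≤ j
    · have e1 : Q i = P i := if_pos hij
      exact ⟨m', hm', by rw [h', e1]⟩
    · have e1 : Q i = t * P i := if_neg hij
      exact ⟨m' * t, mul_mem hm' htN, by rw [h', e1, mul_assoc]⟩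

/-- the four point inequality in the quotient -/
theorem four (hK : 4 * (Θ : ℤ) + 100 ≤ W.K) (J : ∀ g : F5, Jm W g → E.len g ≤ 1)
    (H : JP W E Θ) (M : Subgroup F5) [M.Normal] (hM : M = W.toFam.N) (u p v z : F5 ⧸ M) :
    E.qoLen M (u⁻¹ * v) + E.qoLen M (z⁻¹ * p) ≤
      max (E.qoLen M (u⁻¹ * z) + E.qoLen M (v⁻¹ * p))
        (E.qoLen M (u⁻¹ * p) + E.qoLen M (v⁻¹ * z)) + E.D := by
  obtain ⟨P0, h0⟩ := QuotientGroup.mk_surjective u
  obtain ⟨P1, h1, d1⟩ := E.qoLen_lift M P0 p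
  obtain ⟨P2, h2, d2⟩ := E.qoLen_lift M P1 v
  obtain ⟨P3, h3, d3⟩ := E.qoLen_lift M P2 z
  obtain ⟨P4, h4, d4⟩ := E.qoLen_lift M P3 u
  have h0' : (P0 : F5 ⧸ M) = u := h0
  obtain ⟨m, hm, hm4⟩ := GH.qo_of_coe_eq M (h0'.trans h4.symm)
  rw [h0'] at d1
  rw [h1] at d2
  rw [h2] at d3
  rw [h3] at d4
  let P : ℕ → F5 := fun j => match j with
    | 0 => P0
    | 1 => P1
    | 2 => P2
    | 3 => P3
    | _ => P4
  let l : ℕ → ℕ := fun j => match j with
    | 0 => E.qoLen M (u⁻¹ * p)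
    | 1 => E.qoLen M (p⁻¹ * v)
    | 2 => E.qoLen M (v⁻¹ * z)
    | _ => E.qoLen M (z⁻¹ * u)
  obtain ⟨P', hR, hc, hP'⟩ := close hK J H l (fd (P 0) (P 4)).toNat P
    (Int.self_le_toNat _) ⟨m, hM ▸ hm, hm4⟩
    (fun j hj => by
      rcases (by omega : j = 0 ∨ j = 1 ∨ j = 2 ∨ j = 3) with rfl | rfl | rfl | rfl
      · exact d1.le
      · exact d2.le
      · exact d3.le
      · exact d4.le)
  have e : ∀ j ≤ 4, (P' j : F5 ⧸ M) = (P j : F5 ⧸ M) := by
    intro j hj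
    obtain ⟨m', hm', h⟩ := hP' j hj
    rw [h]
    exact GH.qo_coe_mul M (hM ▸ hm') _
  have r0 : E.d (P' 0) (P' 1) ≤ E.qoLen M (u⁻¹ * p) := hR 0 (by norm_num)
  have r1 : E.d (P' 1) (P' 2) ≤ E.qoLen M (p⁻¹ * v) := hR 1 (by norm_num)
  have r2 : E.d (P' 2) (P' 3) ≤ E.qoLen M (v⁻¹ * z) := hR 2 (by norm_num)
  have r3 : E.d (P' 3) (P' 4) ≤ E.qoLen M (z⁻¹ * u) := hR 3 (by norm_num)
  rw [hc] at r3
  have f := E.fp (P' 0) (P' 2) (P' 3) (P' 1)
  have g1 := E.qoLen_d M (P' 0) (P' 2)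
  have g2 := E.qoLen_d M (P' 3) (P' 1)
  rw [e 0 (by norm_num), e 2 (by norm_num)] at g1
  rw [e 3 (by norm_num), e 1 (by norm_num)] at g2
  have a0 : (P 0 : F5 ⧸ M) = u := h0'
  have a1 : (P 1 : F5 ⧸ M) = p := h1
  have a2 : (P 2 : F5 ⧸ M) = v := h2
  have a3 : (P 3 : F5 ⧸ M) = z := h3
  rw [a0, a2] at g1
  rw [a3, a1] at g2
  have c1 : E.qoLen M (z⁻¹ * u) = E.qoLen M (u⁻¹ * z) := by
    rw [← E.qoLen_inv]; congr 1; group
  have c2 : E.qoLen M (p⁻¹ * v) = E.qoLen M (v⁻¹ * p) := by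
    rw [← E.qoLen_inv]; congr 1; group
  have c3 := E.d_comm (P' 0) (P' 3)
  have c4 := E.d_comm (P' 1) (P' 2)
  omega

theorem t : S_RB4 := by
  intro Θ
  refine ⟨4 * Θ + 100, ?_⟩
  intro K hK W E R hW hC H
  have hK' : 4 * (Θ : ℤ) + 100 ≤ W.K := by rw [hW.hK]; exact hK
  have J : ∀ g : F5, Jm W g → E.len g ≤ 1 := fun g hg => (hC.one g).2 hg
  refine ⟨{ len := E.qoLen W.toFam.N
            D := 2 * E.D + 2
            len_one := E.qoLen_one W.toFam.N
            eq_one := E.qoLen_eq_one W.toFam.N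
            len_inv := E.qoLen_inv W.toFam.N
            len_mul := E.qoLen_mul W.toFam.N
            fp' := fun u v w z => ?_
            step := E.qoLen_step W.toFam.N }, ⟨fun g => E.qoLen_le W.toFam.N g,
              fun q => E.qoLen_rep W.toFam.N q⟩⟩
  have h := four hK' J H W.toFam.N rfl u z v w
  omega

end Pool.Agent.Y215.RN.RB4
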